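import Mathlib

/-!
Implicit certificate for `S(P) S(Q) = 1` (problem MP_950c07_nt): definitions and targets.
-/

namespace Pool.Agent.H49.PQ

/-- the conclusion -/
def Sol : Prop := ∃ P Q : Finset ℕ, 2 ≤ P.card ∧ 2 ≤ Q.card ∧ (∀ x ∈ P, 2 ≤ x) ∧
  (∀ x ∈ Q, 2 ≤ x) ∧ (∀ x ∈ P, ∀ y ∈ P, x ≠ y → Nat.Coprime x y) ∧
  (∀ x ∈ Q, ∀ y ∈ Q, x ≠ y → Nat.Coprime x y) ∧
  (∑ x ∈ P, (1 : ℚ) / x) * (∑ y ∈ Q, (1 : ℚ) / y) = 1

/-- `P` is a non-empty pairwise coprime set of integers `≥ 2` with product `b` and sum of the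
reciprocals `a / b` -/
def Good (P : Finset ℕ) (a b : ℕ) : Prop :=
  P.Nonempty ∧ (∀ x ∈ P, 2 ≤ x) ∧ (∀ x ∈ P, ∀ y ∈ P, x ≠ y → Nat.Coprime x y) ∧
    ∏ x ∈ P, x = b ∧ (∑ x ∈ P, (1 : ℚ) / x) = a / b

/-- the checker; `β` is the residue of the (huge) product `b` modulo `M`, `k` the current value of
`b d - a c` -/
def chk (c d lo lo' : ℕ) : List ℕ → ℕ → ℕ → ℕ → Bool
  | [], β, M, k => M % k == 0 && (d * d + β * c) % k == 0 && Nat.ble (2 * k) lo' 
  | k' :: ks, β, M, k =>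
    let M' := M / k
    let x := ((β * c + k') / k) % M'
    M % k == 0 && M' % k' == 0 && M' % d == 0 && (β * c + k') % k == 0 &&
      Nat.gcd (β % k') k' == 1 && Nat.gcd (x % d) d == 1 && Nat.ble 1 k' &&
      Nat.ble (2 * k) lo && chk c d lo lo' ks (β * x % M') M' k'

/-- adding one element to `P` -/
def T_ADD : Prop := ∀ (P : Finset ℕ) (a b x : ℕ), Good P a b → 2 ≤ x → Nat.Coprime x b →
  ∃ P' : Finset ℕ, Good P' (a * x + b) (b * x) ∧ P'.card = P.card + 1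

/-- the last pair -/
def T_END : Prop := ∀ (P Q : Finset ℕ) (a b c d k : ℕ), Good P a b → Good Q c d →
  Nat.Coprime b d → Nat.Coprime k b → 0 < k → b * d = a * c + k → k ∣ d * d + b * c →
  2 * k ≤ b → Sol

/-- soundness of the checker -/
def T_CHK : Prop := ∀ (Q : Finset ℕ) (c d lo lo' : ℕ), Good Q c d → ∀ (ks : List ℕ) (β M k : ℕ)
  (P : Finset ℕ) (a b : ℕ), Good P a b → Nat.Coprime b d → Nat.Coprime k b → 0 < k →
  b * d = a * c + k → lo ≤ b * c → lo' ≤ b → 0 < M → b % M = β % M →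
  chk c d lo lo' ks β M k = true → Sol

/-- numerator of the sum of reciprocals of a list -/
def num : List ℕ → ℕ
  | [] => 0
  | x :: l => l.prod + x * num l

/-- the initial sets -/
def T_INI : Prop := ∀ l : List ℕ, l ≠ [] → (∀ x ∈ l, 2 ≤ x) → l.Pairwise Nat.Coprime →
  Good l.toFinset (num l) l.prod

/-- everything together, for data `lp`, `lq` (initial sets) and `ks` (the list `k₁, .., kₙ`) -/
def T_ALL : Prop := ∀ (lp lq ks : List ℕ) (k : ℕ), lp ≠ [] → lq ≠ [] → (∀ x ∈ lp ++ lq, 2 ≤ x) →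
  (lp ++ lq).Pairwise Nat.Coprime → lp.prod * lq.prod = num lp * num lq + k → 0 < k →
  Nat.gcd (k % lp.prod) lp.prod = 1 → (∀ y ∈ ks, 0 < y) →
  chk (num lq) lq.prod (lp.prod * num lq) lp.prod ks (lp.prod % (k * ks.prod * lq.prod))
    (k * ks.prod * lq.prod) k = true → Sol

end Pool.Agent.H49.PQ
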