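import Pool.Agent.H49.PQ.Defs

/-!
The checker with forced evaluation (for the kernel).
-/

namespace Pool.Agent.H49.PQ

/-- evaluate the number before it is used -/
def force {α : Type} (n : ℕ) (f : ℕ → α) : α := Nat.casesOn n (f 0) (fun m => f (m + 1))

theorem force_eq {α : Type} (n : ℕ) (f : ℕ → α) : force n f = f n := by cases n <;> rfl

/-- the checker, strict version -/
def chkF (c d lo lo' : ℕ) : List ℕ → ℕ → ℕ → ℕ → Bool
  | [], β, M, k => M % k == 0 && (d * d + β * c) % k == 0 && Nat.ble (2 * k) lo'
  | k' :: ks, β, M, k =>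
    force (M / k) fun M' => force (β * c + k') fun t => force (t / k % M') fun x =>
      force (β * x % M') fun β' =>
      bif (M % k == 0 && M' % k' == 0 && M' % d == 0 && t % k == 0 &&
      Nat.gcd (β % k') k' == 1 && Nat.gcd (x % d) d == 1 && Nat.ble 1 k' &&
      Nat.ble (2 * k) lo) then chkF c d lo lo' ks β' M' k' else false

theorem chkF_eq (c d lo lo' : ℕ) : ∀ (ks : List ℕ) (β M k : ℕ),
    chkF c d lo lo' ks β M k = chk c d lo lo' ks β M k := by
  intro ks
  induction ks with
  | nil => intro β M k; rfl
  | cons k' ks ih =>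
    intro β M k
    simp only [chkF, chk, force_eq]
    rw [ih]
    generalize chk c d lo lo' ks _ _ _ = r
    generalize (M % k == 0 && M / k % k' == 0 && M / k % d == 0 && (β * c + k') % k == 0 &&
      Nat.gcd (β % k') k' == 1 && Nat.gcd ((β * c + k') / k % (M / k) % d) d == 1 &&
      Nat.ble 1 k' && Nat.ble (2 * k) lo) = s
    cases s <;> rfl

end Pool.Agent.H49.PQ
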