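import Pool.Agent.H49.PQ.Fast
import Pool.Agent.H49.PQ.Data

/-!
Evaluation of the checker by the kernel.
-/

namespace Pool.Agent.H49.PQ

theorem run_true : (force (num lq) fun c => force lq.prod fun d => force (lp.prod * c) fun lo =>
    force lp.prod fun lo' => force (k₀ * ks.prod * d) fun M => force (lo' % M) fun β =>
    chkF c d lo lo' ks β M k₀) = true := by
  decide +kernel

theorem chk_true : chk (num lq) lq.prod (lp.prod * num lq) lp.prod ks
    (lp.prod % (k₀ * ks.prod * lq.prod)) (k₀ * ks.prod * lq.prod) k₀ = true := by
  have h := run_true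
  simp only [force_eq] at h
  rw [chkF_eq] at h
  exact h

end Pool.Agent.H49.PQ
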